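import Mathlib

namespace Pool.Agent.Lib.MP_019b27_al

open Filter

/-- `M4Free L`: four elements with all pairwise meets equal to `o` and all pairwise joins equal
to `i` force `o = i`. -/
def M4Free (L : Type*) [Lattice L] : Prop :=
  ∀ (a : Fin 4 → L) (o i : L), (∀ j l, j ≠ l → a j ⊓ a l = o) → (∀ j l, j ≠ l → a j ⊔ a l = i) → o = i

theorem key_meet {K : Type*} [Lattice K] [IsModularLattice K] {a b Y : K}
    (h1 : Y ≤ (a ⊓ Y) ⊔ (b ⊓ Y)) (h2 : a ⊓ b ≤ Y) : (a ⊔ Y) ⊓ (b ⊔ Y) ≤ Y := by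
  have ha : a ⊔ Y ≤ (b ⊓ Y) ⊔ a := by
    refine sup_le le_sup_right (h1.trans (sup_le ?_ le_sup_left))
    exact inf_le_left.trans le_sup_right
  have hb : b ⊔ Y ≤ (a ⊓ Y) ⊔ b := by
    refine sup_le le_sup_right (h1.trans (sup_le le_sup_left ?_))
    exact inf_le_left.trans le_sup_right
  have e1 : ((a ⊓ Y) ⊔ b) ⊓ ((b ⊓ Y) ⊔ a) = (a ⊓ Y) ⊔ (b ⊓ ((b ⊓ Y) ⊔ a)) :=
    sup_inf_assoc_of_le _ (inf_le_left.trans le_sup_right)
  have e2 : ((b ⊓ Y) ⊔ a) ⊓ b = (b ⊓ Y) ⊔ (a ⊓ b) := sup_inf_assoc_of_le _ inf_le_left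
  calc (a ⊔ Y) ⊓ (b ⊔ Y) ≤ ((a ⊓ Y) ⊔ b) ⊓ ((b ⊓ Y) ⊔ a) := by
        rw [inf_comm]; exact inf_le_inf hb ha
    _ = (a ⊓ Y) ⊔ ((b ⊓ Y) ⊔ (a ⊓ b)) := by rw [e1, inf_comm b, e2]
    _ ≤ Y := sup_le inf_le_right (sup_le inf_le_right h2)

theorem collapse {K : Type*} [Lattice K] [IsModularLattice K] (hK : M4Free K)
    (a : Fin 4 → K) (X Y : K) (hYX : Y ≤ X)
    (hX : ∀ j l, j ≠ l → X ≤ (a j ⊓ X) ⊔ (a l ⊓ X))
    (hY : ∀ j l, j ≠ l → Y ≤ (a j ⊓ Y) ⊔ (a l ⊓ Y))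
    (hm : ∀ j l, j ≠ l → a j ⊓ a l ≤ Y) : Y = X := by
  refine hK (fun j => (a j ⊓ X) ⊔ Y) Y X ?_ ?_
  · intro j l hjl
    refine le_antisymm ?_ (le_inf le_sup_right le_sup_right)
    refine le_trans (inf_le_inf (sup_le_sup_right inf_le_left _) (sup_le_sup_right inf_le_left _)) ?_
    exact key_meet (hY j l hjl) (hm j l hjl)
  · intro j l hjl
    refine le_antisymm (sup_le (sup_le inf_le_right hYX) (sup_le inf_le_right hYX)) ?_
    exact (hX j l hjl).trans (sup_le_sup le_sup_left le_sup_left)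

/-- the subgroup `2 ^ m • ℤ²`. -/
def B (m : ℕ) : AddSubgroup (ℤ × ℤ) where
  carrier := {w | (2 : ℤ) ^ m ∣ w.1 ∧ (2 : ℤ) ^ m ∣ w.2}
  add_mem' := fun ha hb => ⟨dvd_add ha.1 hb.1, dvd_add ha.2 hb.2⟩
  zero_mem' := ⟨dvd_zero _, dvd_zero _⟩
  neg_mem' := fun ha => ⟨(dvd_neg).2 ha.1, (dvd_neg).2 ha.2⟩

theorem mem_B {m : ℕ} {w : ℤ × ℤ} : w ∈ B m ↔ (2 : ℤ) ^ m ∣ w.1 ∧ (2 : ℤ) ^ m ∣ w.2 := Iff.rfl

theorem B_anti {m n : ℕ} (h : m ≤ n) : B n ≤ B m := fun _ hw =>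
  ⟨(pow_dvd_pow 2 h).trans hw.1, (pow_dvd_pow 2 h).trans hw.2⟩

/-- subgroups of `ℤ²` of index a power of two. -/
def L1 : Sublattice (AddSubgroup (ℤ × ℤ)) where
  carrier := {H | ∃ m, B m ≤ H}
  supClosed' := by
    rintro H ⟨m, hm⟩ H' _
    exact ⟨m, hm.trans le_sup_left⟩
  infClosed' := by
    rintro H ⟨m, hm⟩ H' ⟨n, hn⟩
    exact ⟨max m n, le_inf ((B_anti (le_max_left _ _)).trans hm) ((B_anti (le_max_right _ _)).trans hn)⟩

theorem relation0 (w1 w2 w3 : ℤ × ℤ) :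
    ∃ α β γ : ℤ, α • w1 + β • w2 + γ • w3 = 0 ∧ ¬ (α = 0 ∧ β = 0 ∧ γ = 0) := by
  obtain ⟨a, b⟩ := w1
  obtain ⟨c, d⟩ := w2
  obtain ⟨e, f⟩ := w3
  by_cases h : a * d - b * c = 0
  · by_cases ha : a = 0
    · by_cases hb : b = 0
      · exact ⟨1, 0, 0, by simp [ha, hb], by simp⟩
      · refine ⟨d, -b, 0, ?_, by simp [hb]⟩
        ext <;> simp <;> nlinarith
    · refine ⟨c, -a, 0, ?_, by simp [ha]⟩
      ext <;> simp <;> nlinarith
  · refine ⟨c * f - d * e, e * b - f * a, a * d - b * c, ?_, by simp [h]⟩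
    ext <;> simp <;> ring

theorem relation_aux (w1 w2 w3 : ℤ × ℤ) (n : ℕ) : ∀ α β γ : ℤ,
    α.natAbs + β.natAbs + γ.natAbs ≤ n → α • w1 + β • w2 + γ • w3 = 0 → ¬ (α = 0 ∧ β = 0 ∧ γ = 0) →
    ∃ α β γ : ℤ, α • w1 + β • w2 + γ • w3 = 0 ∧ ¬ (Even α ∧ Even β ∧ Even γ) := by
  induction n with
  | zero => intro α β γ h _ h0; exfalso; apply h0; omega
  | succ n ih =>
    intro α β γ h hr h0
    by_cases he : Even α ∧ Even β ∧ Even γ
    · obtain ⟨⟨x, hx⟩, ⟨y, hy⟩, ⟨z, hz⟩⟩ := he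
      refine ih x y z (by omega) ?_ (by omega)
      have : (2 : ℤ) • (x • w1 + y • w2 + z • w3) = 0 := by
        rw [← hr, hx, hy, hz]; module
      exact (smul_eq_zero.1 this).resolve_left (by norm_num)
    · exact ⟨α, β, γ, hr, he⟩

theorem relation (w1 w2 w3 : ℤ × ℤ) :
    ∃ α β γ : ℤ, α • w1 + β • w2 + γ • w3 = 0 ∧ ¬ (Even α ∧ Even β ∧ Even γ) := by
  obtain ⟨α, β, γ, h, h0⟩ := relation0 w1 w2 w3
  exact relation_aux w1 w2 w3 _ α β γ le_rfl h h0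

theorem three_sum (P : AddSubgroup (ℤ × ℤ)) (w1 w2 w3 : ℤ × ℤ)
    (d1 : (2 : ℤ) • w1 ∈ P) (d2 : (2 : ℤ) • w2 ∈ P) (d3 : (2 : ℤ) • w3 ∈ P)
    (n1 : w1 ∉ P) (n2 : w2 ∉ P) (n3 : w3 ∉ P)
    (n12 : w1 - w2 ∉ P) (n13 : w1 - w3 ∉ P) (n23 : w2 - w3 ∉ P) : w1 + w2 + w3 ∈ P := by
  obtain ⟨α, β, γ, h, hne⟩ := relation w1 w2 w3
  have key : ∀ x y z : ℤ, x • ((2 : ℤ) • w1) + y • ((2 : ℤ) • w2) + z • ((2 : ℤ) • w3) ∈ P :=
    fun x y z => P.add_mem (P.add_mem (P.zsmul_mem d1 x) (P.zsmul_mem d2 y)) (P.zsmul_mem d3 z)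
  rcases Int.even_or_odd' α with ⟨x, hx | hx⟩ <;> rcases Int.even_or_odd' β with ⟨y, hy | hy⟩ <;>
    rcases Int.even_or_odd' γ with ⟨z, hz | hz⟩ <;> subst hx hy hz
  · exact absurd ⟨even_two_mul _, even_two_mul _, even_two_mul _⟩ hne
  · exfalso; apply n3
    have := key (-x) (-y) (-z)
    convert this using 1
    linear_combination (exp := 1) h
  · exfalso; apply n2
    have := key (-x) (-y) (-z)
    convert this using 1
    linear_combination (exp := 1) h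
  · exfalso; apply n23
    have := key (-x) (-y) (-z - 1)
    convert this using 1
    linear_combination (exp := 1) h
  · exfalso; apply n1
    have := key (-x) (-y) (-z)
    convert this using 1
    linear_combination (exp := 1) h
  · exfalso; apply n13
    have := key (-x) (-y) (-z - 1)
    convert this using 1
    linear_combination (exp := 1) h
  · exfalso; apply n12
    have := key (-x) (-y - 1) (-z)
    convert this using 1
    linear_combination (exp := 1) h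
  · have := key (-x) (-y) (-z)
    convert this using 1
    linear_combination (exp := 1) h


/-- the doubled subgroup `2 • H`. -/
def dbl (H : AddSubgroup (ℤ × ℤ)) : AddSubgroup (ℤ × ℤ) := H.map (zsmulAddGroupHom (2 : ℤ))

theorem mem_dbl {H : AddSubgroup (ℤ × ℤ)} {w : ℤ × ℤ} : w ∈ dbl H ↔ ∃ u ∈ H, (2 : ℤ) • u = w := by
  simp [dbl, AddSubgroup.mem_map]

theorem dbl_le (H : AddSubgroup (ℤ × ℤ)) : dbl H ≤ H := by
  intro w hw
  obtain ⟨u, hu, rfl⟩ := mem_dbl.1 hw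
  exact H.zsmul_mem hu 2

theorem dbl_sup (H H' : AddSubgroup (ℤ × ℤ)) : dbl (H ⊔ H') = dbl H ⊔ dbl H' :=
  AddSubgroup.map_sup _ _ _

theorem nakayama (o i : AddSubgroup (ℤ × ℤ)) (m : ℕ) (hm : B m ≤ o) (h : i ≤ o ⊔ dbl i) : i ≤ o := by
  have key : ∀ n : ℕ, ∀ w ∈ i, ∃ y ∈ o, ∃ u ∈ i, w = y + (2 : ℤ) ^ n • u := by
    intro n
    induction n with
    | zero => intro w hw; exact ⟨0, o.zero_mem, w, hw, by simp⟩
    | succ n ih =>
      intro w hw
      obtain ⟨y, hy, u, hu, rfl⟩ := ih w hw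
      obtain ⟨y', hy', z, hz, hyz⟩ := AddSubgroup.mem_sup.1 (h hu)
      obtain ⟨u', hu', rfl⟩ := mem_dbl.1 hz
      refine ⟨y + (2 : ℤ) ^ n • y', o.add_mem hy (o.zsmul_mem hy' _), u', hu', ?_⟩
      rw [← hyz, pow_succ]; module
  intro w hw
  obtain ⟨y, hy, u, -, rfl⟩ := key m w hw
  refine o.add_mem hy (hm ?_)
  rw [mem_B]
  simp

theorem m4free_sub (a : Fin 4 → AddSubgroup (ℤ × ℤ)) (o i : AddSubgroup (ℤ × ℤ)) (m : ℕ)
    (hm : B m ≤ o) (h1 : ∀ j l, j ≠ l → a j ⊓ a l = o) (h2 : ∀ j l, j ≠ l → a j ⊔ a l = i) :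
    o = i := by
  have ho : ∀ j, o ≤ a j := by
    intro j
    obtain ⟨l, hl⟩ := exists_ne j
    rw [← h1 j l hl.symm]; exact inf_le_left
  have hi : ∀ j, a j ≤ i := by
    intro j
    obtain ⟨l, hl⟩ := exists_ne j
    rw [← h2 j l hl.symm]; exact le_sup_left
  refine le_antisymm ((ho 0).trans (hi 0)) ?_
  by_contra hio
  set P := o ⊔ dbl i with hP
  have hiP : ¬ i ≤ P := fun h => hio (nakayama o i m hm h)
  have hmeet : ∀ j l, j ≠ l → (a j ⊔ P) ⊓ (a l ⊔ P) ≤ P := by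
    intro j l hjl
    refine key_meet ?_ (by rw [h1 j l hjl]; exact le_sup_left)
    refine sup_le ((le_inf (ho j) le_sup_left).trans le_sup_left) ?_
    have e : dbl i = dbl (a j) ⊔ dbl (a l) := by rw [← h2 j l hjl, dbl_sup]
    have m1 : ∀ k, dbl (a k) ≤ a k ⊓ P := fun k =>
      le_inf (dbl_le _) ((AddSubgroup.map_mono (hi k)).trans le_sup_right)
    rw [e]
    exact sup_le_sup (m1 j) (m1 l)
  have hex : ∀ j, ∃ w ∈ a j, w ∉ P := by
    intro j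
    by_contra hc
    push Not at hc
    have hjP : a j ≤ P := hc
    obtain ⟨k, l, hk, hl, hkl⟩ : ∃ k l : Fin 4, j ≠ k ∧ j ≠ l ∧ k ≠ l :=
      (by decide : ∀ j : Fin 4, ∃ k l : Fin 4, j ≠ k ∧ j ≠ l ∧ k ≠ l) j
    apply hiP
    refine le_trans (le_inf ?_ ?_) (hmeet k l hkl)
    · rw [← h2 j k hk]; exact sup_le (hjP.trans le_sup_right) le_sup_left
    · rw [← h2 j l hl]; exact sup_le (hjP.trans le_sup_right) le_sup_left
  choose w hw hwP using hex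
  have hd : ∀ j, (2 : ℤ) • w j ∈ P := fun j =>
    (le_sup_right : dbl i ≤ P) (mem_dbl.2 ⟨w j, hi j (hw j), rfl⟩)
  have hdiff : ∀ j l, j ≠ l → w j - w l ∉ P := by
    intro j l hjl hmem
    apply hwP j
    apply hmeet j l hjl
    refine ⟨(le_sup_left : a j ≤ a j ⊔ P) (hw j), ?_⟩
    have : w j = w l + (w j - w l) := by abel
    rw [this]
    exact AddSubgroup.add_mem_sup (hw l) hmem
  have s1 := three_sum P (w 0) (w 1) (w 2) (hd 0) (hd 1) (hd 2) (hwP 0) (hwP 1) (hwP 2)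
    (hdiff 0 1 (by decide)) (hdiff 0 2 (by decide)) (hdiff 1 2 (by decide))
  have s2 := three_sum P (w 0) (w 1) (w 3) (hd 0) (hd 1) (hd 3) (hwP 0) (hwP 1) (hwP 3)
    (hdiff 0 1 (by decide)) (hdiff 0 3 (by decide)) (hdiff 1 3 (by decide))
  apply hdiff 2 3 (by decide)
  have := P.sub_mem s1 s2
  convert this using 1
  abel

theorem m4free_L1 : M4Free L1 := by
  intro a o i h1 h2
  obtain ⟨m, hm⟩ := o.2
  apply Subtype.ext
  refine m4free_sub (fun j => (a j).1) o.1 i.1 m hm ?_ ?_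
  · intro j l hjl; exact congrArg Subtype.val (h1 j l hjl)
  · intro j l hjl; exact congrArg Subtype.val (h2 j l hjl)

theorem modular_L1 : IsModularLattice L1 := by
  constructor
  intro x y z h
  exact (IsModularLattice.sup_inf_le_assoc_of_le (α := AddSubgroup (ℤ × ℤ)) y.1 h :)

/-- the reduced power of `L1` modulo the cofinite filter on `ℕ`. -/
abbrev L0 : Type := Germ (atTop : Filter ℕ) L1

theorem modular_L0 : IsModularLattice L0 := by
  have := modular_L1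
  constructor
  intro x y z
  induction x using Germ.inductionOn
  induction y using Germ.inductionOn
  induction z using Germ.inductionOn
  intro h
  rw [Germ.coe_le] at h
  refine Germ.coe_le.2 ?_
  filter_upwards [h] with k hk
  exact IsModularLattice.sup_inf_le_assoc_of_le _ hk

theorem m4free_L0 : M4Free L0 := by
  intro a o i h1 h2
  induction o using Germ.inductionOn with | _ o => ?_
  induction i using Germ.inductionOn with | _ i => ?_
  have : ∀ j, ∃ f : ℕ → L1, a j = (f : L0) := fun j => by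
    induction a j using Germ.inductionOn with | _ f => exact ⟨f, rfl⟩
  choose f hf using this
  have e1 : ∀ᶠ k in atTop, ∀ j l, j ≠ l → f j k ⊓ f l k = o k := by
    simp only [eventually_all]
    intro j l hjl
    have := h1 j l hjl
    rw [hf, hf] at this
    exact Germ.coe_eq.1 this
  have e2 : ∀ᶠ k in atTop, ∀ j l, j ≠ l → f j k ⊔ f l k = i k := by
    simp only [eventually_all]
    intro j l hjl
    have := h2 j l hjl
    rw [hf, hf] at this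
    exact Germ.coe_eq.1 this
  refine Germ.coe_eq.2 ?_
  filter_upwards [e1, e2] with k hk1 hk2
  exact m4free_L1 (fun j => f j k) (o k) (i k) hk1 hk2

/-- four directions in `ℤ²`. -/
def v : Fin 4 → ℤ × ℤ := ![(1, 0), (0, 1), (1, 1), (1, 2)]

theorem det_dvd (j l : Fin 4) (h : j ≠ l) :
    ∃ c : ℤ, c * ((v j).1 * (v l).2 - (v j).2 * (v l).1) = 2 := by
  have : ∀ j l : Fin 4, j ≠ l → ∃ c ∈ ([1, -1, 2, -2] : List ℤ),
      c * ((v j).1 * (v l).2 - (v j).2 * (v l).1) = 2 := by decide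
  obtain ⟨c, -, hc⟩ := this j l h
  exact ⟨c, hc⟩

/-- `B m` as an element of `L1`. -/
def BB (m : ℕ) : L1 := ⟨B m, m, le_rfl⟩

/-- the line through `v j`, thickened by `B m`. -/
def AA (j : Fin 4) (m : ℕ) : L1 := ⟨AddSubgroup.zmultiples (v j) ⊔ B m, m, le_sup_right⟩

theorem F1 (j l : Fin 4) (h : j ≠ l) (k m : ℕ) :
    BB (m + 1) ≤ (AA j k ⊓ BB m) ⊔ (AA l k ⊓ BB m) := by
  obtain ⟨c, hc⟩ := det_dvd j l h
  intro w hw
  obtain ⟨⟨p, hp⟩, ⟨q, hq⟩⟩ := mem_B.1 hw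
  have hmem : ∀ (i : Fin 4) (t : ℤ), (2 ^ m * t) • v i ∈ (AA i k ⊓ BB m).1 := by
    intro i t
    refine ⟨(le_sup_left : AddSubgroup.zmultiples (v i) ≤ _) ⟨_, rfl⟩, ?_⟩
    refine mem_B.2 ⟨?_, ?_⟩ <;> simp [mul_assoc]
  have : w = (2 ^ m * (c * (p * (v l).2 - q * (v l).1))) • v j
      + (2 ^ m * (c * (q * (v j).1 - p * (v j).2))) • v l := by
    ext
    · simp only [Prod.fst_add, Prod.smul_fst, smul_eq_mul, hp]
      linear_combination (-(2 ^ m * p)) * hc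
    · simp only [Prod.snd_add, Prod.smul_snd, smul_eq_mul, hq]
      linear_combination (-(2 ^ m * q)) * hc
  rw [this]
  exact AddSubgroup.add_mem_sup (hmem j _) (hmem l _)

theorem F2 (j l : Fin 4) (h : j ≠ l) (m : ℕ) : AA j (m + 1) ⊓ AA l (m + 1) ≤ BB m := by
  obtain ⟨c, hc⟩ := det_dvd j l h
  rintro w ⟨hw1, hw2⟩
  obtain ⟨_, ⟨α, rfl⟩, y, hy, hw⟩ := AddSubgroup.mem_sup.1 hw1
  obtain ⟨_, ⟨β, rfl⟩, z, hz, hw'⟩ := AddSubgroup.mem_sup.1 hw2
  obtain ⟨⟨p, hp⟩, ⟨q, hq⟩⟩ := mem_B.1 hy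
  obtain ⟨⟨r, hr⟩, ⟨s, hs⟩⟩ := mem_B.1 hz
  have e := hw.trans hw'.symm
  have e1 := congrArg Prod.fst e
  have e2 := congrArg Prod.snd e
  simp only [Prod.fst_add, Prod.snd_add, Prod.smul_fst, Prod.smul_snd, smul_eq_mul, hp, hq, hr, hs]
    at e1 e2
  have hα : α = 2 ^ m * (c * ((r - p) * (v l).2 - (s - q) * (v l).1)) := by
    have : (2 : ℤ) * α = 2 * (2 ^ m * (c * ((r - p) * (v l).2 - (s - q) * (v l).1))) := by
      linear_combination (-α) * hc + c * (v l).2 * e1 - c * (v l).1 * e2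
    linarith
  rw [← hw]
  refine (B m).add_mem ?_ (B_anti (Nat.le_succ m) hy)
  rw [hα]
  refine mem_B.2 ⟨?_, ?_⟩ <;> simp [mul_assoc]

theorem BB_anti {m n : ℕ} (h : m ≤ n) : BB n ≤ BB m := B_anti h

theorem F4 (m : ℕ) : ¬ BB m ≤ BB (m + 1) := by
  intro h
  have h1 : (((2 : ℤ) ^ m, (0 : ℤ)) : ℤ × ℤ) ∈ B m := mem_B.2 ⟨dvd_rfl, dvd_zero _⟩
  have h2 := (mem_B.1 (h h1)).1
  have := Int.le_of_dvd (by positivity) h2
  have h3 : (2 : ℤ) ^ m < 2 ^ (m + 1) := pow_lt_pow_right₀ (by norm_num) (Nat.lt_succ_self m)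
  simp only at this
  linarith

theorem no_embedding {K : Type*} [CompleteLattice K] [IsModularLattice K] (hK : M4Free K)
    (f : LatticeHom L0 K) : ¬ Function.Injective f := by
  intro hf
  have mono : Monotone f := OrderHomClass.mono f
  have hsup : ∀ x y, f (x ⊔ y) = f x ⊔ f y := fun x y => SupHomClass.map_sup f x y
  have hinf : ∀ x y, f (x ⊓ y) = f x ⊓ f y := fun x y => InfHomClass.map_inf f x y
  let A : Fin 4 → L0 := fun j => ((fun k => AA j (2 * k) : ℕ → L1) : L0)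
  let X : ℕ → L0 := fun n => ((fun k => BB (k - n) : ℕ → L1) : L0)
  let Y : ℕ → L0 := fun n => ((fun k => BB (2 * k - n) : ℕ → L1) : L0)
  let E : L0 := ((fun k => BB (k + 1) : ℕ → L1) : L0)
  have hX : ∀ n j l, j ≠ l → X n ≤ (A j ⊓ X (n + 1)) ⊔ (A l ⊓ X (n + 1)) := by
    intro n j l hjl
    refine Germ.coe_le.2 ?_
    filter_upwards [eventually_ge_atTop (n + 1)] with k hk
    have := F1 j l hjl (2 * k) (k - (n + 1))
    rwa [show k - (n + 1) + 1 = k - n by omega] at this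
  have hY : ∀ n j l, j ≠ l → Y n ≤ (A j ⊓ Y (n + 1)) ⊔ (A l ⊓ Y (n + 1)) := by
    intro n j l hjl
    refine Germ.coe_le.2 ?_
    filter_upwards [eventually_ge_atTop (n + 1)] with k hk
    have := F1 j l hjl (2 * k) (2 * k - (n + 1))
    rwa [show 2 * k - (n + 1) + 1 = 2 * k - n by omega] at this
  have hA : ∀ j l, j ≠ l → A j ⊓ A l ≤ Y 1 := by
    intro j l hjl
    refine Germ.coe_le.2 ?_
    filter_upwards [eventually_ge_atTop 1] with k hk
    have := F2 j l hjl (2 * k - 1)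
    rwa [show 2 * k - 1 + 1 = 2 * k by omega] at this
  have hE : ∀ n, Y n ≤ E := by
    intro n
    refine Germ.coe_le.2 ?_
    filter_upwards [eventually_ge_atTop (n + 1)] with k hk
    exact BB_anti (by omega)
  have hEX : E ≤ X 0 := by
    refine Germ.coe_le.2 (Eventually.of_forall fun k => ?_)
    exact BB_anti (by omega)
  have hXE : ¬ X 0 ≤ E := by
    intro h
    obtain ⟨k, hk⟩ := (Germ.coe_le.1 h).exists
    exact F4 k hk
  have step : ∀ Z : ℕ → L0, (∀ n j l, j ≠ l → Z n ≤ (A j ⊓ Z (n + 1)) ⊔ (A l ⊓ Z (n + 1))) →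
      ∀ j l, j ≠ l → (⨆ n, f (Z n)) ≤ (f (A j) ⊓ ⨆ n, f (Z n)) ⊔ (f (A l) ⊓ ⨆ n, f (Z n)) := by
    intro Z hZ j l hjl
    refine iSup_le fun n => (mono (hZ n j l hjl)).trans ?_
    rw [hsup, hinf, hinf]
    exact sup_le_sup (inf_le_inf_left _ (le_iSup (fun n => f (Z n)) _))
      (inf_le_inf_left _ (le_iSup (fun n => f (Z n)) _))
  have hYE : (⨆ n, f (Y n)) ≤ f E := iSup_le fun n => mono (hE n)
  have hX0 : f (X 0) ≤ ⨆ n, f (X n) := le_iSup (fun n => f (X n)) 0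
  have := collapse hK (fun j => f (A j)) (⨆ n, f (X n)) (⨆ n, f (Y n))
    (hYE.trans ((mono hEX).trans hX0)) (step X hX) (step Y hY)
    (fun j l hjl => by
      rw [← hinf]; exact (mono (hA j l hjl)).trans (le_iSup (fun n => f (Y n)) 1))
  apply hXE
  have h1 : f (X 0) ≤ f E := hX0.trans (this ▸ hYE)
  have h2 : f (X 0 ⊓ E) = f (X 0) := by rw [hinf]; exact inf_eq_left.2 h1
  exact inf_eq_left.1 (hf h2)

end Pool.Agent.Lib.MP_019b27_al
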